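import Pool.Agent.Helper96.PB.Final

/-!
# Boolean programs which read a fraction of the bits rarely and all other bits arbitrarily often

The nodes of the network are the elements of `Fin (8 * a * (w + 1))`, a row has `m` letters in each node; letters are
elements of the `ZMod 2`-space `B`. The input gives a bit `I (b, l)` for every cell `b : B` and every word
`l : Word 15 m B`, that is a function from `Fin 15 × Fin m` to `B`. The word of the cell `b` is the sum `tab I b` of the
words `l` with `I (b, l) = 1`. The letter `(u, t)` of the row `i + 1` is the sum over all `(s, t')` of the letters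
`(s, t')` of the word of the cell given by the letter `(g s u, t + t')` of the row `i` (`val (fine g) x0`). The result
`out g x0 a I` is the sum of the bits `(b, 0)` for the cells `b` given by the letters of the row `a + 1`.

`NProg` are branching programs, which are deterministic if `Det P`, and `PProg` are deterministic ones with a pushdown
store. The list `l` in `P.Ends I l z` contains the bits queried by a computation with result `z`, in the order of the
queries.
-/

namespace Pool.Agent.Results.MP_4e849b_lc.RarelyReadBits

open Pool.Agent.Helper19.NF Pool.Agent.Helper74.NW Pool.Agent.Helper99.NQ Pool.Agent.Helper96.PB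
open Pool.Agent.Helper96.PH (Cut Det win)

theorem result : ∃ C : ℝ, 1 ≤ C ∧ ∀ (ε θ : ℝ) (w a m : ℕ) [NeZero m], 0 < ε → ε ≤ 1 → 0 < θ → θ ≤ 1 → C ≤ a →
    C ^ (w + 1) / ε ^ 2 ≤ m → 1 ≤ θ * 2 ^ a → ∃ g : Fin 15 → Equiv.Perm (Fin (8 * a * (w + 1))),
      ∀ (B : Type) [AddCommGroup B] [Module (ZMod 2) B] [Fintype B] [DecidableEq B]
        (x0 : Fin (8 * a * (w + 1)) × Fin m → B),
      Function.Injective x0 → C * (a ^ 2 * (w + 1) * m : ℝ) ^ 2 ≤ θ ^ 2 * Fintype.card B →
        -- (H) the computations which can be cut into `w + 1` parts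
        (∀ l : List (B × Word 15 m B), ((∃ X : Finset (B × Word 15 m B),
            ε * Fintype.card (B × Word 15 m B) ≤ X.card ∧ ∀ z ∈ X, l.count z ≤ w) ∨
            l.length ≤ (w + 1) * win ε w (Fintype.card (B × Word 15 m B))) →
          Cut (win ε w (Fintype.card (B × Word 15 m B))) (w + 1) l) ∧
        -- (D) deterministic programs
        (∀ (S : ℕ) (P : NProg (B × Word 15 m B) (ZMod 2) (ZMod 2) S), S ≤ 2 ^ a → Det P →
          (Nat.card {I : B × Word 15 m B → ZMod 2 // ∃ l, P.Ends I l (out g x0 a I) ∧
              Cut (win ε w (Fintype.card (B × Word 15 m B))) (w + 1) l} : ℝ) ≤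
            Nat.card {I : B × Word 15 m B → ZMod 2 // ∃ l z, P.Ends I l z ∧
              Cut (win ε w (Fintype.card (B × Word 15 m B))) (w + 1) l} / 2 +
            θ * Nat.card (B × Word 15 m B → ZMod 2)) ∧
        -- (P) a deterministic pushdown program
        (∃ (Q Γ : Type) (_ : Finite Q) (_ : Finite Γ) (P : PProg (B × Word 15 m B) (ZMod 2) (ZMod 2) Q Γ),
          Nat.card Q ≤ Fintype.card (B × Word 15 m B) ^ 3 ∧ Nat.card Γ ≤ Fintype.card (B × Word 15 m B) ∧
          ∀ I, P.Outputs I (out g x0 a I) ∧
            Nat.card {x // P.Asks I x} ^ 2 * Fintype.card B ≤ Fintype.card (B × Word 15 m B) ^ 2) ∧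
        -- (U) a deterministic program without store
        ∃ (S : ℕ) (P : NProg (B × Word 15 m B) (ZMod 2) (ZMod 2) S),
          S ≤ Fintype.card (B × Word 15 m B) ^ (2 * a * (w + 1)) ∧ Det P ∧
          ∀ I, (∃ l, P.Ends I l (out g x0 a I)) ∧
            ∀ l z, P.Ends I l z → z = out g x0 a I ∧
              l.length ^ 2 * Fintype.card B ≤ Fintype.card (B × Word 15 m B) ^ 2 :=
  main

end Pool.Agent.Results.MP_4e849b_lc.RarelyReadBits
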